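import Mathlib

/-!
# MP_4c2ece_co: contraction distance versus identification distance to minor-closed classes

We disprove Q1.  For the minor-closed class of the graphs with at most one vertex of degree at
least three, there are trees from which one gets into the class by identifying two vertices, but
only by arbitrarily many edge contractions.
-/

namespace Pool.Agent.Results.MP_4c2ece_co.DoubleBroom

open Set

/-- The graph obtained from `G` by identifying the vertices with the same image under `f`. -/
def image {V W : Type} (G : SimpleGraph V) (f : V → W) : SimpleGraph W where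
  Adj a b := a ≠ b ∧ ∃ u v, f u = a ∧ f v = b ∧ G.Adj u v
  symm := ⟨by
    rintro a b ⟨hab, u, v, hu, hv, huv⟩
    exact ⟨hab.symm, v, u, hv, hu, huv.symm⟩⟩
  loopless := ⟨fun a h => h.1 rfl⟩

/-- The equivalence relation on `V` whose classes are the parts of the partition `P` of the set
`X ⊆ V` and the single vertices outside `X`. -/
def partSetoid {V : Type} [DecidableEq V] {X : Finset V} (P : Finpartition X) : Setoid V where
  r x y := x = y ∨ ∃ S ∈ P.parts, x ∈ S ∧ y ∈ S
  iseqv := by
    refine ⟨fun x => Or.inl rfl, ?_, ?_⟩
    · rintro x y (rfl | ⟨S, hS, hx, hy⟩)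
      · exact Or.inl rfl
      · exact Or.inr ⟨S, hS, hy, hx⟩
    · rintro x y z (rfl | ⟨S, hS, hx, hy⟩) h
      · exact h
      · rcases h with rfl | ⟨T, hT, hy', hz⟩
        · exact Or.inr ⟨S, hS, hx, hy⟩
        · have : S = T := P.disjoint.elim_finset hS hT y hy hy'
          subst this
          exact Or.inr ⟨S, hS, hx, hz⟩

/-- The graph obtained from `G` by identifying each part of the partition `P` of `X ⊆ V(G)` to a
single vertex. -/
def identify {V : Type} [DecidableEq V] (G : SimpleGraph V) {X : Finset V} (P : Finpartition X) :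
    SimpleGraph (Quotient (partSetoid P)) :=
  image G (Quotient.mk (partSetoid P))

/-- The equivalence relation whose only non-trivial class is `{u, v}`. -/
def pairSetoid {V : Type} (u v : V) : Setoid V where
  r x y := x = y ∨ ((x = u ∨ x = v) ∧ (y = u ∨ y = v))
  iseqv := by
    refine ⟨fun x => Or.inl rfl, ?_, ?_⟩
    · rintro x y (rfl | ⟨hx, hy⟩)
      · exact Or.inl rfl
      · exact Or.inr ⟨hy, hx⟩
    · rintro x y z (rfl | ⟨hx, hy⟩) h
      · exact h
      · rcases h with rfl | ⟨hy', hz⟩
        · exact Or.inr ⟨hx, hy⟩
        · exact Or.inr ⟨hx, hz⟩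

/-- The graph obtained from `G` by replacing `u` and `v` by one vertex adjacent to
`(N(u) ∪ N(v)) \ {u, v}`; this is the contraction of `uv` if `u v` is an edge. -/
def contract {V : Type} (G : SimpleGraph V) (u v : V) : SimpleGraph (Quotient (pairSetoid u v)) :=
  image G (Quotient.mk (pairSetoid u v))

/-- A class of graphs (with vertex sets in `Type`). -/
abbrev GraphClass := ∀ V : Type, SimpleGraph V → Prop

/-- `G'` is a minor of `G`: there are disjoint, nonempty, connected branch sets. -/
def IsMinor {W V : Type} (G' : SimpleGraph W) (G : SimpleGraph V) : Prop :=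
  ∃ φ : W → Set V, (∀ a, (G.induce (φ a)).Connected) ∧
    (∀ a b, a ≠ b → Disjoint (φ a) (φ b)) ∧
    ∀ a b, G'.Adj a b → ∃ u ∈ φ a, ∃ v ∈ φ b, G.Adj u v

/-- A minor-closed class of finite graphs (this includes closure under isomorphism). -/
structure IsMinorClosed (H : GraphClass) : Prop where
  finite : ∀ (V : Type) (G : SimpleGraph V), H V G → Finite V
  minor : ∀ (V : Type) (G : SimpleGraph V) (W : Type) (G' : SimpleGraph W),
    H V G → IsMinor G' G → H W G'

/-- `G` admits a `k`-identification to `H`. -/
def AdmitsIdentification (H : GraphClass) {V : Type} [DecidableEq V] (G : SimpleGraph V) (k : ℕ) :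
    Prop :=
  ∃ (X : Finset V) (P : Finpartition X), X.card ≤ k ∧ H _ (identify G P)

/-- Some `k` successive edge contractions turn `G` into a graph in `H`. -/
def Reach (H : GraphClass) : ℕ → ∀ V : Type, SimpleGraph V → Prop
  | 0, V, G => H V G
  | k + 1, V, G => ∃ u v, G.Adj u v ∧ Reach H k (Quotient (pairSetoid u v)) (contract G u v)

/-- The least `k` such that `G` admits a `k`-identification to `H`. -/
noncomputable def idn (H : GraphClass) {V : Type} [DecidableEq V] (G : SimpleGraph V) : ℕ :=
  sInf {k | AdmitsIdentification H G k}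

/-- The least number of successive edge contractions that turn `G` into a graph in `H`. -/
noncomputable def ec (H : GraphClass) {V : Type} (G : SimpleGraph V) : ℕ :=
  sInf {k | Reach H k V G}

/-! ### The class -/

/-- The finite graphs with at most one vertex of degree at least three. -/
def oneBranch : GraphClass := fun V G =>
  Finite V ∧ ∀ x y, 3 ≤ (G.neighborSet x).ncard → 3 ≤ (G.neighborSet y).ncard → x = y

theorem branch_lemma {V : Type} [Finite V] (G : SimpleGraph V) (S : Set V)
    (hS : (G.induce S).Connected) (hdeg : ∀ u ∈ S, (G.neighborSet u).ncard ≤ 2) (T : Set V)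
    (hT : ∀ w ∈ T, w ∉ S ∧ ∃ u ∈ S, G.Adj u w) : T.ncard ≤ 2 := by
  classical
  have : Fintype V := Fintype.ofFinite V
  have hedges := hS.card_vert_le_card_edgeSet_add_one
  have hsum := (G.induce S).sum_degrees_eq_twice_card_edges
  have hcardE : Nat.card (G.induce S).edgeSet = (G.induce S).edgeFinset.card := by
    rw [Nat.card_eq_fintype_card, ← SimpleGraph.edgeFinset_card]
  rw [hcardE, Nat.card_eq_fintype_card] at hedges
  -- boundary of the set
  let N : S → Finset V := fun u => (G.neighborFinset u).filter (fun w => w ∉ S)
  have hdeg' : ∀ u : S, (G.induce S).degree u + (N u).card ≤ 2 := by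
    intro u
    have h1 : (G.neighborFinset u).card ≤ 2 := by
      have := hdeg u u.2
      rwa [Set.ncard_eq_toFinset_card'] at this
    have h2 : (G.induce S).degree u ≤ ((G.neighborFinset u).filter (fun w => w ∈ S)).card := by
      rw [← SimpleGraph.card_neighborFinset_eq_degree]
      refine Finset.card_le_card_of_injOn (fun w : S => (w : V)) ?_ ?_
      · intro w hw
        simp only [SimpleGraph.mem_neighborFinset, Finset.coe_filter, Set.mem_ofPred_eq,
          Finset.mem_coe] at hw ⊢
        exact ⟨hw, w.2⟩
      · intro a _ b _ h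
        exact Subtype.ext h
    have h3 := Finset.card_filter_add_card_filter_not (s := G.neighborFinset (u : V))
      (fun w => w ∈ S)
    change (G.induce S).degree u + ((G.neighborFinset (u : V)).filter (fun w => w ∉ S)).card ≤ 2
    omega
  have hsub : T.toFinset ⊆ Finset.univ.biUnion N := by
    intro w hw
    rw [Set.mem_toFinset] at hw
    obtain ⟨hwS, u, hu, huw⟩ := hT w hw
    rw [Finset.mem_biUnion]
    refine ⟨⟨u, hu⟩, Finset.mem_univ _, ?_⟩
    simp only [N, Finset.mem_filter, SimpleGraph.mem_neighborFinset]
    exact ⟨huw, hwS⟩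
  have h1 : T.ncard ≤ ∑ u : S, (N u).card := by
    rw [Set.ncard_eq_toFinset_card']
    exact (Finset.card_le_card hsub).trans Finset.card_biUnion_le
  have h2 : ∑ u : S, ((G.induce S).degree u + (N u).card) ≤ ∑ _u : S, 2 :=
    Finset.sum_le_sum fun u _ => hdeg' u
  rw [Finset.sum_add_distrib, hsum, Finset.sum_const, Finset.card_univ, smul_eq_mul] at h2
  omega

theorem isMinorClosed_oneBranch : IsMinorClosed oneBranch where
  finite := fun V G h => h.1
  minor := by
    rintro V G W G' ⟨hfin, huniq⟩ ⟨φ, hconn, hdisj, hadj⟩
    have hne : ∀ a, (φ a).Nonempty := by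
      intro a
      obtain ⟨x⟩ := (hconn a).nonempty
      exact ⟨x.1, x.2⟩
    choose g hg using hne
    have hginj : Function.Injective g := by
      intro a b h
      by_contra hab
      exact Set.disjoint_left.1 (hdisj a b hab) (hg a) (h ▸ hg b)
    have hW : Finite W := Finite.of_injective g hginj
    refine ⟨hW, ?_⟩
    -- each branch set of a vertex of degree at least three contains such a vertex
    have key : ∀ a, 3 ≤ (G'.neighborSet a).ncard → ∃ u ∈ φ a, 3 ≤ (G.neighborSet u).ncard := by
      intro a ha
      by_contra hcon
      push Not at hcon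
      have hch : ∀ b : W, ∃ w : V, G'.Adj a b → w ∈ φ b ∧ ∃ u ∈ φ a, G.Adj u w := by
        intro b
        by_cases hab : G'.Adj a b
        · obtain ⟨u, hu, v, hv, huv⟩ := hadj a b hab
          exact ⟨v, fun _ => ⟨hv, u, hu, huv⟩⟩
        · exact ⟨g b, fun h => absurd h hab⟩
      choose w hw using hch
      have h1 := branch_lemma G (φ a) (hconn a) (fun u hu => by have := hcon u hu; omega)
        (w '' G'.neighborSet a) (by
          rintro _ ⟨b, hb, rfl⟩
          refine ⟨fun hwa => ?_, (hw b hb).2⟩
          exact Set.disjoint_left.1 (hdisj a b hb.ne) hwa (hw b hb).1)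
      have h2 : (w '' G'.neighborSet a).ncard = (G'.neighborSet a).ncard := by
        apply Set.ncard_image_of_injOn
        intro b hb c hc hbc
        by_contra hne
        exact Set.disjoint_left.1 (hdisj b c hne) (hw b hb).1 (hbc ▸ (hw c hc).1)
      omega
    intro x y hx hy
    obtain ⟨u, hu, hu3⟩ := key x hx
    obtain ⟨v, hv, hv3⟩ := key y hy
    have huv := huniq u v hu3 hv3
    by_contra hxy
    exact Set.disjoint_left.1 (hdisj x y hxy) hu (huv ▸ hv)

/-! ### Sequences of contractions -/

theorem image_image {U V W : Type} (G : SimpleGraph U) (f : U → V) (g : V → W) :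
    image (image G f) g = image G (g ∘ f) := by
  ext a b
  constructor
  · rintro ⟨hab, p, q, hp, hq, hpq, u, v, hu, hv, huv⟩
    exact ⟨hab, u, v, by simp [hu, hp], by simp [hv, hq], huv⟩
  · rintro ⟨hab, u, v, hu, hv, huv⟩
    refine ⟨hab, f u, f v, hu, hv, ?_, u, v, rfl, rfl, huv⟩
    intro h
    apply hab
    rw [← hu, ← hv]
    simp [h]

theorem mk_eq_mk {V : Type} {u v x y : V} :
    (Quotient.mk (pairSetoid u v) x = Quotient.mk (pairSetoid u v) y) ↔
      (x = y ∨ ((x = u ∨ x = v) ∧ (y = u ∨ y = v))) := Quotient.eq

theorem ncard_le_image_add_one {V : Type} [Finite V] (u v : V) (T : Set V) :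
    T.ncard ≤ ((Quotient.mk (pairSetoid u v)) '' T).ncard + 1 := by
  have h1 : (T \ {v}).ncard = ((Quotient.mk (pairSetoid u v)) '' (T \ {v})).ncard := by
    symm
    apply Set.ncard_image_of_injOn
    rintro x ⟨_, hx⟩ y ⟨_, hy⟩ hxy
    rcases mk_eq_mk.1 hxy with h | ⟨h1 | h1, h2 | h2⟩
    · exact h
    · rw [h1, h2]
    · exact absurd h2 hy
    · exact absurd h1 hx
    · exact absurd h1 hx
  have h2 : ((Quotient.mk (pairSetoid u v)) '' (T \ {v})).ncard ≤
      ((Quotient.mk (pairSetoid u v)) '' T).ncard :=
    Set.ncard_le_ncard (Set.image_mono Set.sdiff_subset)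
  have h3 : T.ncard ≤ (T \ {v}).ncard + 1 := by
    have := Set.ncard_le_ncard_sdiff_add_ncard T {v}
    simpa using this
  omega

/-- What `k` contractions can do. -/
theorem exists_of_reach (H : GraphClass) (k : ℕ) : ∀ (V : Type) [Finite V] (G : SimpleGraph V),
    Reach H k V G → ∃ (W : Type) (f : V → W), Function.Surjective f ∧ H W (image G f) ∧
      (∀ T : Set V, T.ncard ≤ (f '' T).ncard + k) ∧
      ∀ h : V → ℤ, (∀ x y, G.Adj x y → h x ≤ h y + 1) → ∀ x y, f x = f y → h x ≤ h y + k := by
  induction k with
  | zero =>
    intro V _ G hG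
    refine ⟨V, id, Function.surjective_id, ?_, ?_, ?_⟩
    · have : image G id = G := by
        ext a b
        constructor
        · rintro ⟨_, u, v, rfl, rfl, h⟩
          exact h
        · intro h
          exact ⟨h.ne, a, b, rfl, rfl, h⟩
      rw [this]
      exact hG
    · intro T
      simp
    · rintro h _ x y rfl
      simp
  | succ k ih =>
    intro V _ G hG
    obtain ⟨u, v, huv, hreach⟩ := hG
    obtain ⟨W, f, hf, hH, hT, hh⟩ := ih _ _ hreach
    refine ⟨W, f ∘ Quotient.mk (pairSetoid u v), hf.comp Quotient.mk_surjective, ?_, ?_, ?_⟩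
    · rw [← image_image]
      exact hH
    · intro T
      have h1 := ncard_le_image_add_one u v T
      have h2 := hT (Quotient.mk (pairSetoid u v) '' T)
      rw [Set.image_comp]
      omega
    · intro h hlip x y hxy
      -- squash the level between `h u` and `h v`
      let c := min (h u) (h v)
      let h' : V → ℤ := fun z => if h z ≤ c then h z else h z - 1
      have huv1 := hlip u v huv
      have hvu1 := hlip v u huv.symm
      have hwell : ∀ a b, (a = b ∨ ((a = u ∨ a = v) ∧ (b = u ∨ b = v))) → h u ≠ h v →
          h' a = h' b := by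
        intro a b hab hne
        simp only [h', c]
        rcases hab with rfl | ⟨rfl | rfl, rfl | rfl⟩
        · rfl
        · rfl
        · split_ifs <;> omega
        · split_ifs <;> omega
        · rfl
      by_cases hne : h u = h v
      · have hwell' : ∀ a b, (pairSetoid u v).r a b → h a = h b := by
          rintro a b (rfl | ⟨rfl | rfl, rfl | rfl⟩)
          · rfl
          · rfl
          · exact hne
          · exact hne.symm
          · rfl
        have h1 := hh (Quotient.lift h hwell') (by
          rintro p q ⟨_, a, b, rfl, rfl, hab⟩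
          exact hlip a b hab) (Quotient.mk _ x) (Quotient.mk _ y) hxy
        have h2 : h x ≤ h y + k := h1
        push_cast
        omega
      · have hwell' : ∀ a b, (pairSetoid u v).r a b → h' a = h' b := fun a b hab =>
          hwell a b hab hne
        have h1 := hh (Quotient.lift h' hwell') (by
          rintro p q ⟨_, a, b, rfl, rfl, hab⟩
          have := hlip a b hab
          change h' a ≤ h' b + 1
          simp only [h']
          split_ifs <;> omega) (Quotient.mk _ x) (Quotient.mk _ y) hxy
        have h2 : h' x ≤ h' y + k := h1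
        have h3 : h x ≤ h' x + 1 := by
          simp only [h']; split_ifs <;> omega
        have h4 : h' y ≤ h y := by
          simp only [h']; split_ifs <;> omega
        push_cast
        omega

theorem connected_image {V W : Type} {G : SimpleGraph V} (hG : G.Connected) {f : V → W}
    (hf : Function.Surjective f) : (image G f).Connected := by
  have : Nonempty V := hG.nonempty
  have : Nonempty W := this.map f
  refine ⟨fun a b => ?_⟩
  obtain ⟨x, rfl⟩ := hf a
  obtain ⟨y, rfl⟩ := hf b
  obtain ⟨p⟩ := hG.preconnected x y
  induction p with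
  | nil => exact SimpleGraph.Reachable.refl _
  | @cons u v w huv p ih =>
    by_cases h : f u = f v
    · rw [h]; exact ih
    · have hadj : (image G f).Adj (f u) (f v) := ⟨h, u, v, rfl, rfl, huv⟩
      exact hadj.reachable.trans ih

/-- Every connected finite graph can be contracted to a single vertex. -/
theorem exists_reach (H : GraphClass)
    (hH : ∀ (V : Type) (G : SimpleGraph V), Finite V → Subsingleton V → H V G) (n : ℕ) :
    ∀ (V : Type) (G : SimpleGraph V), Finite V → Nat.card V ≤ n → G.Connected →
      ∃ k, Reach H k V G := by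
  induction n with
  | zero =>
    intro V G hV hcard hG
    have := hG.nonempty
    have : 0 < Nat.card V := Nat.card_pos
    omega
  | succ n ih =>
    intro V G hV hcard hG
    by_cases hsub : Subsingleton V
    · exact ⟨0, hH V G hV hsub⟩
    · rw [not_subsingleton_iff_nontrivial] at hsub
      have := hG.nonempty
      obtain ⟨v, huv⟩ := hG.preconnected.exists_adj_of_nontrivial (Classical.arbitrary V)
      set u := Classical.arbitrary V with hu
      have hsurj : Function.Surjective (Quotient.mk (pairSetoid u v)) := Quotient.mk_surjective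
      have hfin : Finite (Quotient (pairSetoid u v)) := Finite.of_surjective _ hsurj
      have hlt : Nat.card (Quotient (pairSetoid u v)) < Nat.card V := by
        have := Fintype.ofFinite V
        have := Fintype.ofFinite (Quotient (pairSetoid u v))
        rw [Nat.card_eq_fintype_card, Nat.card_eq_fintype_card]
        refine Fintype.card_lt_of_surjective_not_injective _ hsurj fun hinj => ?_
        exact huv.ne (hinj (mk_eq_mk.2 (Or.inr ⟨Or.inl rfl, Or.inr rfl⟩)))
      obtain ⟨k, hk⟩ := ih (Quotient (pairSetoid u v)) (contract G u v) hfin (by omega)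
        (connected_image hG hsurj)
      exact ⟨k + 1, u, v, huv, hk⟩

theorem oneBranch_of_subsingleton (V : Type) (G : SimpleGraph V) (h : Finite V)
    (h' : Subsingleton V) : oneBranch V G := ⟨h, fun x y _ _ => Subsingleton.elim x y⟩

/-! ### Double brooms -/

/-- The vertices of the double broom: the path `0, …, n` and `n + 3` leaves at either end. -/
abbrev BV (n : ℕ) := Fin (n + 1) ⊕ (Bool × Fin (n + 3))

/-- Adjacency in the double broom, up to symmetry. -/
def brel (n : ℕ) : BV n → BV n → Prop
  | Sum.inl i, Sum.inl j => (i : ℕ) + 1 = j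
  | Sum.inl i, Sum.inr (false, _) => (i : ℕ) = 0
  | Sum.inl i, Sum.inr (true, _) => (i : ℕ) = n
  | Sum.inr _, _ => False

/-- The double broom. -/
def broom (n : ℕ) : SimpleGraph (BV n) where
  Adj x y := brel n x y ∨ brel n y x
  symm := ⟨fun _ _ h => h.symm⟩
  loopless := ⟨by
    rintro (i | ⟨b, i⟩) (h | h) <;> simp [brel] at h⟩

/-- The level function on the double broom. -/
def level (n : ℕ) : BV n → ℤ
  | Sum.inl i => i
  | Sum.inr (false, _) => 0
  | Sum.inr (true, _) => n

theorem level_lipschitz (n : ℕ) (x y : BV n) (h : (broom n).Adj x y) :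
    level n x ≤ level n y + 1 := by
  rcases x with i | ⟨_ | _, i⟩ <;> rcases y with j | ⟨_ | _, j⟩ <;>
    rcases h with h | h <;> simp only [brel, level] at h ⊢ <;> omega

theorem broom_connected (n : ℕ) : (broom n).Connected := by
  have h0 : ∀ i : ℕ, ∀ hi : i < n + 1, (broom n).Reachable (Sum.inl 0) (Sum.inl ⟨i, hi⟩) := by
    intro i
    induction i with
    | zero => intro _; exact SimpleGraph.Reachable.refl _
    | succ i ih =>
      intro hi
      have h1 := ih (by omega)
      have h2 : (broom n).Adj (Sum.inl ⟨i, by omega⟩) (Sum.inl ⟨i + 1, hi⟩) := Or.inl rfl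
      exact h1.trans h2.reachable
  have h1 : ∀ x : BV n, (broom n).Reachable (Sum.inl 0) x := by
    rintro (i | ⟨_ | _, i⟩)
    · exact h0 i i.2
    · have h2 : (broom n).Adj (Sum.inl 0) (Sum.inr (false, i)) := Or.inl (by simp [brel])
      exact h2.reachable
    · have h2 : (broom n).Adj (Sum.inl ⟨n, by omega⟩) (Sum.inr (true, i)) := Or.inl (by simp [brel])
      exact (h0 n (by omega)).trans h2.reachable
  exact ⟨fun x y => (h1 x).symm.trans (h1 y)⟩

theorem three_le_degree {n k : ℕ} (hk : k < n) {W : Type} (f : BV n → W)
    (hf : Function.Surjective f)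
    (hT : ∀ T : Set (BV n), T.ncard ≤ (f '' T).ncard + k) (b : Bool) (c : BV n)
    (hc : ∀ i, (broom n).Adj c (Sum.inr (b, i))) :
    3 ≤ ((image (broom n) f).neighborSet (f c)).ncard := by
  have hW : Finite W := Finite.of_surjective f hf
  let T : Set (BV n) := Set.range fun i : Fin (n + 3) => (Sum.inr (b, i) : BV n)
  have hTcard : T.ncard = n + 3 := by
    have : T = (fun i : Fin (n + 3) => (Sum.inr (b, i) : BV n)) '' Set.univ := by
      simp [T]
    rw [this, Set.ncard_image_of_injective, Set.ncard_univ, Nat.card_eq_fintype_card,
      Fintype.card_fin]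
    intro i j h
    simpa using h
  have h1 := hT T
  have h2 : (f '' T).ncard ≤ (f '' T \ {f c}).ncard + 1 := by
    have := Set.ncard_le_ncard_sdiff_add_ncard (f '' T) {f c}
    simpa using this
  have h3 : (f '' T \ {f c}).ncard ≤ ((image (broom n) f).neighborSet (f c)).ncard := by
    refine Set.ncard_le_ncard ?_ (Set.toFinite _)
    rintro _ ⟨⟨_, ⟨i, rfl⟩, rfl⟩, hne⟩
    exact ⟨fun h => hne h.symm, c, _, rfl, rfl, hc i⟩
  omega

theorem not_reach {n k : ℕ} (hk : k < n) : ¬ Reach oneBranch k (BV n) (broom n) := by
  intro h
  obtain ⟨W, f, hf, ⟨_, huniq⟩, hT, hh⟩ := exists_of_reach _ _ _ _ h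
  have h1 : f (Sum.inl 0) ≠ f (Sum.inl (Fin.last n)) := by
    intro h
    have := hh (level n) (level_lipschitz n) _ _ h.symm
    simp only [level, Fin.val_last, Fin.val_zero] at this
    omega
  apply h1
  apply huniq
  · exact three_le_degree hk f hf hT false _ fun i => Or.inl (by simp [brel])
  · exact three_le_degree hk f hf hT true _ fun i => Or.inl (by simp [brel])

/-- The partition of `{x, y}` with one part. -/
def onePart {V : Type} [DecidableEq V] (x y : V) : Finpartition ({x, y} : Finset V) :=
  Finpartition.indiscrete (by simp)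

theorem admits (n : ℕ) : AdmitsIdentification oneBranch (broom n) 2 := by
  refine ⟨{Sum.inl 0, Sum.inl (Fin.last n)}, onePart _ _, Finset.card_le_two, ?_, ?_⟩
  · exact Finite.of_surjective _ Quotient.mk_surjective
  set P := onePart (Sum.inl 0 : BV n) (Sum.inl (Fin.last n)) with hP
  have key : ∀ x : BV n, 3 ≤ ((identify (broom n) P).neighborSet (Quotient.mk _ x)).ncard →
      (Quotient.mk (partSetoid P) x) = Quotient.mk (partSetoid P) (Sum.inl 0) := by
    intro x hx
    by_contra hne
    -- the class of `x` is `{x}` and `x` has degree at most two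
    have hx0 : x ≠ Sum.inl 0 := fun h => hne (by rw [h])
    have hcl : Quotient.mk (partSetoid P) (Sum.inl (Fin.last n)) =
        Quotient.mk (partSetoid P) (Sum.inl 0) := by
      apply Quotient.sound
      right
      refine ⟨{Sum.inl 0, Sum.inl (Fin.last n)}, ?_, by simp, by simp⟩
      simp [hP, onePart, Finpartition.indiscrete]
    have hxn : x ≠ Sum.inl (Fin.last n) := fun h => hne (by rw [h, hcl])
    have hfib : ∀ y, Quotient.mk (partSetoid P) y = Quotient.mk (partSetoid P) x → y = x := by
      intro y hy
      rcases Quotient.exact hy with h | ⟨S, hS, hyS, hxS⟩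
      · exact h
      · simp only [hP, onePart, Finpartition.indiscrete, Finset.mem_singleton] at hS
        subst hS
        simp only [Finset.mem_insert, Finset.mem_singleton] at hxS
        rcases hxS with h | h
        · exact absurd h hx0
        · exact absurd h hxn
    have hsub : (identify (broom n) P).neighborSet (Quotient.mk _ x) ⊆
        (Quotient.mk (partSetoid P)) '' (broom n).neighborSet x := by
      rintro a ⟨_, u, v, hu, hv, huv⟩
      rw [hfib u hu] at huv
      exact ⟨v, huv, hv⟩
    have hdeg : ((broom n).neighborSet x).ncard ≤ 2 := by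
      rcases x with i | ⟨b, i⟩
      · have hi0 : (i : ℕ) ≠ 0 := fun h => hx0 (by congr 1; exact Fin.ext h)
        have hin : (i : ℕ) ≠ n := fun h => hxn (by congr 1; exact Fin.ext h)
        have hsub2 : (broom n).neighborSet (Sum.inl i) ⊆
            {Sum.inl ⟨i - 1, by omega⟩, Sum.inl ⟨i + 1, by omega⟩} := by
          rintro (j | ⟨_ | _, j⟩) (h | h)
          · right
            simp only [brel] at h
            simp only [Set.mem_singleton_iff, Sum.inl.injEq]
            exact Fin.ext h.symm
          · left
            simp only [brel] at h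
            simp only [Sum.inl.injEq]
            exact Fin.ext (by simp only; omega)
          · exact absurd h hi0
          · exact absurd h (by simp [brel])
          · exact absurd h hin
          · exact absurd h (by simp [brel])
        exact (Set.ncard_le_ncard hsub2).trans (Set.ncard_insert_le _ _ |>.trans (by simp))
      · have hsub2 : (broom n).neighborSet (Sum.inr (b, i)) ⊆
            {Sum.inl 0, Sum.inl (Fin.last n)} := by
          rintro (j | ⟨_ | _, j⟩) (h | h)
          · exact absurd h (by simp [brel])
          · rcases b with _ | _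
            · left
              simp only [brel] at h
              congr 1
              exact Fin.ext h
            · right
              simp only [brel] at h
              simp only [Set.mem_singleton_iff]
              congr 1
              exact Fin.ext h
          all_goals exact absurd h (by simp [brel])
        exact (Set.ncard_le_ncard hsub2).trans (Set.ncard_insert_le _ _ |>.trans (by simp))
    have h1 := Set.ncard_le_ncard hsub (Set.toFinite _)
    have h2 := Set.ncard_image_le (f := Quotient.mk (partSetoid P))
      (Set.toFinite ((broom n).neighborSet x))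
    omega
  intro a b ha hb
  obtain ⟨x, rfl⟩ := Quotient.mk_surjective a
  obtain ⟨y, rfl⟩ := Quotient.mk_surjective b
  rw [key x ha, key y hb]

/-- **MP_4c2ece_co, disproof of Q1.** There are a minor-closed class `H` of finite graphs and for
every `n` a connected finite graph `G` such that `G` admits a `2`-identification to `H` (so that
its identification distance is at most two), some sequence of edge contractions turns `G` into a
graph in `H`, but every such sequence has length at least `n`. In particular no function bounds
`ec` in terms of `idn` for `H`. -/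
theorem result :
    (∃ H : GraphClass, IsMinorClosed H ∧ ∀ n : ℕ, ∃ (V : Type) (_ : DecidableEq V) (_ : Finite V)
      (G : SimpleGraph V), G.Connected ∧ AdmitsIdentification H G 2 ∧ (∃ k, Reach H k V G) ∧
        ∀ k, Reach H k V G → n ≤ k) ∧
    ¬ ∀ H : GraphClass, IsMinorClosed H → ∃ f : ℕ → ℕ, ∀ (V : Type) [DecidableEq V] [Finite V]
      (G : SimpleGraph V), (∃ k, Reach H k V G) → ec H G ≤ f (idn H G) := by
  have main : ∀ n : ℕ, (broom n).Connected ∧ AdmitsIdentification oneBranch (broom n) 2 ∧
      (∃ k, Reach oneBranch k _ (broom n)) ∧ ∀ k, Reach oneBranch k _ (broom n) → n ≤ k := by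
    intro n
    refine ⟨broom_connected n, admits n, ?_, ?_⟩
    · exact exists_reach oneBranch oneBranch_of_subsingleton _ _ _ inferInstance le_rfl
        (broom_connected n)
    · intro k hk
      by_contra hlt
      exact not_reach (not_le.1 hlt) hk
  refine ⟨⟨oneBranch, isMinorClosed_oneBranch, fun n =>
    ⟨BV n, inferInstance, inferInstance, broom n, main n⟩⟩, ?_⟩
  intro hcon
  obtain ⟨f, hf⟩ := hcon oneBranch isMinorClosed_oneBranch
  let m := f 0 + f 1 + f 2 + 1
  obtain ⟨_, h2, h3, h4⟩ := main m
  have h5 := hf _ (broom m) h3
  have h6 : idn oneBranch (broom m) ≤ 2 := Nat.sInf_le h2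
  have h7 : m ≤ ec oneBranch (broom m) := h4 _ (Nat.sInf_mem h3)
  have h8 : f (idn oneBranch (broom m)) < m := by
    interval_cases (idn oneBranch (broom m)) <;> omega
  omega

end Pool.Agent.Results.MP_4c2ece_co.DoubleBroom
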